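import Mathlib

/-!
# Extremal point-line configurations far from lattice sections

Points `(a + b √2, c + d √2)` with `0 ≤ a, b < k`, `0 ≤ c, d < 6 k ^ 2` and lines
`y = (a + b √2) x + (c + d √2)` with `0 ≤ a, b < k`, `0 ≤ c, d < 3 k ^ 2`: there are `m = 36 k ^ 6`
points, `n = 9 k ^ 6` lines and at least `9 k ^ 8` incidences. No positive proportion of the points,
and no positive proportion of the dual points of the lines, is mapped to points with integer
coordinates by a projective transformation: four points of a column mostly have an irrational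
cross ratio.
-/

set_option autoImplicit false

namespace Pool.Agent.Results.MP_fad2aa_co.SqrtTwoGrid

open Finset Matrix

/-- the number of incidences between the points of `P` and the non-vertical lines `y = s x - t`,
`(s, t) ∈ L` -/
noncomputable def incidences (P L : Finset (ℝ × ℝ)) : ℕ :=
  open Classical in ((P ×ˢ L).filter fun x => x.1.2 = x.2.1 * x.1.1 - x.2.2).card

/-- the projective transformation with matrix `A` is defined on all points of `X` and maps each of
them into the lattice section `{1, ..., a} × {1, ..., b}` -/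
def MapsInto (A : Matrix (Fin 3) (Fin 3) ℝ) (X : Finset (ℝ × ℝ)) (a b : ℕ) : Prop :=
  ∀ p ∈ X, (A *ᵥ ![p.1, p.2, 1]) 2 ≠ 0 ∧ ∃ i ∈ Icc 1 a, ∃ j ∈ Icc 1 b,
    (A *ᵥ ![p.1, p.2, 1]) 0 / (A *ᵥ ![p.1, p.2, 1]) 2 = (i : ℝ) ∧
    (A *ᵥ ![p.1, p.2, 1]) 1 / (A *ᵥ ![p.1, p.2, 1]) 2 = (j : ℝ)

/-- some projective transformation maps `X` into a lattice section of size at most `s` -/
def InSection (X : Finset (ℝ × ℝ)) (s : ℝ) : Prop :=
  ∃ A : Matrix (Fin 3) (Fin 3) ℝ, A.det ≠ 0 ∧ ∃ a b : ℕ, ((a * b : ℕ) : ℝ) ≤ s ∧ MapsInto A X a b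

/-! ### Arithmetic of `a + b √2` -/

/-- the number `a + b √2` -/
noncomputable def val (q : ℕ × ℕ) : ℝ := q.1 + q.2 * √2

theorem sq2 : √2 * √2 = (2 : ℝ) := Real.mul_self_sqrt (by norm_num)

theorem indep {a b : ℤ} (h : (a : ℝ) + b * √2 = 0) : a = 0 ∧ b = 0 := by
  have hb : b = 0 := by
    by_contra hb
    have hb' : (b : ℝ) ≠ 0 := by exact_mod_cast hb
    have : √2 = (((-a : ℤ) / (b : ℤ) : ℚ) : ℝ) := by
      push_cast
      field_simp
      linarith
    exact irrational_sqrt_two ⟨_, this.symm⟩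
  subst hb
  refine ⟨?_, rfl⟩
  have : (a : ℝ) = 0 := by simpa using h
  exact_mod_cast this

theorem val_injective : Function.Injective val := by
  rintro ⟨a, b⟩ ⟨c, d⟩ h
  simp only [val] at h
  have h1 : (((a : ℤ) - c : ℤ) : ℝ) + (((b : ℤ) - d : ℤ) : ℝ) * √2 = 0 := by
    push_cast
    linarith
  obtain ⟨h2, h3⟩ := indep h1
  rw [show a = c by omega, show b = d by omega]

theorem card_le_of_fibers {α β : Type*} [DecidableEq β] (Z : Finset α) (g : α → β) (T : Finset β)
    (k : ℕ) (h1 : ∀ p ∈ Z, g p ∈ T) (h2 : ∀ b ∈ T, (Z.filter fun p => g p = b).card ≤ k) :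
    Z.card ≤ k * T.card := by
  classical
  have him : Z.image g ⊆ T := by
    intro b hb
    obtain ⟨p, hp, rfl⟩ := mem_image.mp hb
    exact h1 p hp
  calc Z.card ≤ k * (Z.image g).card :=
        card_le_mul_card_image Z k (fun b hb => h2 b (him hb))
    _ ≤ k * T.card := Nat.mul_le_mul_left k (card_le_card him)

/-- the box of coefficients -/
def box (M : ℕ) : Finset (ℕ × ℕ) := range M ×ˢ range M

theorem card_box (M : ℕ) : (box M).card = M ^ 2 := by
  rw [box, card_product, card_range]; ring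

/-- Few points of the box on a conic `e (a ^ 2 - 2 b ^ 2) + α a + β b + γ = 0`. -/
theorem conic_count (M : ℕ) (e α β γ : ℤ) (h0 : ¬ (e = 0 ∧ α = 0 ∧ β = 0)) (Y : Finset (ℕ × ℕ))
    (hY : ∀ q ∈ Y, q ∈ box M ∧
      e * ((q.1 : ℤ) ^ 2 - 2 * (q.2 : ℤ) ^ 2) + α * q.1 + β * q.2 + γ = 0) :
    Y.card ≤ 2 * M := by
  classical
  have hmem : ∀ q ∈ Y, q.1 ∈ range M ∧ q.2 ∈ range M := fun q hq =>
    mem_product.mp (hY q hq).1
  by_cases he : e = 0
  · subst he
    by_cases ha : α = 0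
    · subst ha
      have hb : β ≠ 0 := fun hb => h0 ⟨rfl, rfl, hb⟩
      have := card_le_of_fibers Y (fun q => q.1) (range M) 1 (fun q hq => (hmem q hq).1) ?_
      · rw [card_range] at this; omega
      · intro b _
        rw [card_le_one]
        rintro ⟨x, y⟩ hp ⟨x', y'⟩ hq
        rw [mem_filter] at hp hq
        have e1 := (hY _ hp.1).2
        have e2 := (hY _ hq.1).2
        have g1 := hp.2
        have g2 := hq.2
        simp only at e1 e2 g1 g2
        have : β * ((y : ℤ) - y') = 0 := by linear_combination e1 - e2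
        rcases mul_eq_zero.mp this with h | h
        · exact absurd h hb
        · rw [g1, g2, show y = y' by omega]
    · have := card_le_of_fibers Y (fun q => q.2) (range M) 1 (fun q hq => (hmem q hq).2) ?_
      · rw [card_range] at this; omega
      · intro b _
        rw [card_le_one]
        rintro ⟨x, y⟩ hp ⟨x', y'⟩ hq
        rw [mem_filter] at hp hq
        have e1 := (hY _ hp.1).2
        have e2 := (hY _ hq.1).2
        have g1 := hp.2
        have g2 := hq.2
        simp only at e1 e2 g1 g2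
        subst g1; subst g2
        have : α * ((x : ℤ) - x') = 0 := by linear_combination e1 - e2
        rcases mul_eq_zero.mp this with h | h
        · exact absurd h ha
        · rw [show x = x' by omega]
  · have h := card_le_of_fibers Y (fun q => q.2) (range M) 2 (fun q hq => (hmem q hq).2) ?_
    · rw [card_range] at h; exact h
    · intro b _
      by_contra hcon
      push Not at hcon
      rw [two_lt_card] at hcon
      obtain ⟨⟨x1, y1⟩, h1, ⟨x2, y2⟩, h2, ⟨x3, y3⟩, h3, h12, h13, h23⟩ := hcon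
      rw [mem_filter] at h1 h2 h3
      obtain ⟨h1, g1⟩ := h1
      obtain ⟨h2, g2⟩ := h2
      obtain ⟨h3, g3⟩ := h3
      simp only at g1 g2 g3
      subst g1; subst g2; subst g3
      have e1 := (hY _ h1).2
      have e2 := (hY _ h2).2
      have e3 := (hY _ h3).2
      simp only at e1 e2 e3
      have n12 : (x1 : ℤ) - x2 ≠ 0 := fun h => h12 (by rw [show x1 = x2 by omega])
      have n13 : (x1 : ℤ) - x3 ≠ 0 := fun h => h13 (by rw [show x1 = x3 by omega])
      have n23 : (x2 : ℤ) - x3 ≠ 0 := fun h => h23 (by rw [show x2 = x3 by omega])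
      have f1 : e * ((x1 : ℤ) + x2) + α = 0 := by
        have : ((x1 : ℤ) - x2) * (e * ((x1 : ℤ) + x2) + α) = 0 := by linear_combination e1 - e2
        exact (mul_eq_zero.mp this).resolve_left n12
      have f2 : e * ((x1 : ℤ) + x3) + α = 0 := by
        have : ((x1 : ℤ) - x3) * (e * ((x1 : ℤ) + x3) + α) = 0 := by linear_combination e1 - e3
        exact (mul_eq_zero.mp this).resolve_left n13
      have f3 : e * ((x2 : ℤ) - x3) = 0 := by linear_combination f1 - f2
      rcases mul_eq_zero.mp f3 with h | h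
      · exact he h
      · exact n23 h

/-- If a fractional linear map takes integer values at all `val q`, `q ∈ Y`, then `Y` is small. -/
theorem cross_count (M : ℕ) (D : ℝ) (hD : D ≠ 0) (Y : Finset (ℕ × ℕ)) (hYM : Y ⊆ box M)
    (hM : 1 ≤ M) (X : ℕ × ℕ → ℤ) (W : ℕ × ℕ → ℝ) (hW : ∀ q ∈ Y, W q ≠ 0)
    (h : ∀ q ∈ Y, ∀ q' ∈ Y, ((X q : ℝ) - X q') * (W q * W q') = D * (val q - val q')) :
    Y.card ≤ 2 * M := by
  classical
  by_cases hc : Y.card ≤ 2
  · omega
  push Not at hc
  rw [two_lt_card] at hc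
  obtain ⟨⟨a1, b1⟩, h1, ⟨a2, b2⟩, h2, ⟨a3, b3⟩, h3, h12, h13, h23⟩ := hc
  -- coefficients
  set e1 : ℤ := ((a1 : ℤ) - a3) * ((a2 : ℤ) - a3) - 2 * (((b1 : ℤ) - b3) * ((b2 : ℤ) - b3)) with he1
  set e2 : ℤ := ((b1 : ℤ) - b3) * ((a2 : ℤ) - a3) - ((a1 : ℤ) - a3) * ((b2 : ℤ) - b3) with he2
  have hv : ∀ q ∈ Y, ∀ q' ∈ Y, q ≠ q' → val q - val q' ≠ 0 := fun q _ q' _ hne h =>
    hne (val_injective (sub_eq_zero.mp h))
  have hXne : ∀ q ∈ Y, ∀ q' ∈ Y, q ≠ q' → X q - X q' ≠ 0 := by
    intro q hq q' hq' hne h0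
    have h0' : (X q : ℝ) - X q' = 0 := by exact_mod_cast h0
    have := h q hq q' hq'
    rw [h0', zero_mul] at this
    exact mul_ne_zero hD (hv q hq q' hq' hne) this.symm
  have hE : ¬ (e1 = 0 ∧ e2 = 0) := by
    rintro ⟨g1, g2⟩
    have k1 : ((e1 : ℝ) + e2 * √2) =
        (((a1 : ℝ) - a3) + ((b1 : ℝ) - b3) * √2) * (((a2 : ℝ) - a3) - ((b2 : ℝ) - b3) * √2) := by
      rw [he1, he2]
      push_cast
      linear_combination (-((b1 : ℝ) - b3) * ((b2 : ℝ) - b3)) * (sq2).symm
    rw [g1, g2] at k1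
    simp only [Int.cast_zero, zero_mul, add_zero] at k1
    rcases mul_eq_zero.mp k1.symm with k | k
    · have k' : (((a1 : ℤ) - a3 : ℤ) : ℝ) + (((b1 : ℤ) - b3 : ℤ) : ℝ) * √2 = 0 := by
        push_cast; linarith
      obtain ⟨u1, u2⟩ := indep k'
      exact h13 (by rw [show a1 = a3 by omega, show b1 = b3 by omega])
    · have k' : (((a2 : ℤ) - a3 : ℤ) : ℝ) + ((-((b2 : ℤ) - b3) : ℤ) : ℝ) * √2 = 0 := by
        push_cast; linarith
      obtain ⟨u1, u2⟩ := indep k'
      exact h23 (by rw [show a2 = a3 by omega, show b2 = b3 by omega])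
  refine conic_count M e2 (-e2 * (a1 + a2) + e1 * ((b1 : ℤ) - b2))
    (2 * e2 * (b1 + b2) + e1 * ((a2 : ℤ) - a1))
    (e2 * (a1 * a2 - 2 * (b1 * b2)) + e1 * (a1 * b2 - a2 * b1)) ?_ Y ?_
  · rintro ⟨g0, g1, g2⟩
    rw [g0] at g1 g2
    have hne : e1 ≠ 0 := fun hh => hE ⟨hh, g0⟩
    have g1' : e1 * ((b1 : ℤ) - b2) = 0 := by linear_combination g1
    have g2' : e1 * ((a2 : ℤ) - a1) = 0 := by linear_combination g2
    have r1 := (mul_eq_zero.mp g1').resolve_left hne
    have r2 := (mul_eq_zero.mp g2').resolve_left hne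
    exact h12 (by rw [show a1 = a2 by omega, show b1 = b2 by omega])
  · rintro ⟨a, b⟩ hq
    refine ⟨hYM hq, ?_⟩
    by_cases hq1 : (a, b) = (a1, b1)
    · simp only [Prod.mk.injEq] at hq1
      obtain ⟨rfl, rfl⟩ := hq1
      simp only
      ring
    · -- the relation between cross ratios
      set p : ℤ := (X (a1, b1) - X (a, b)) * (X (a2, b2) - X (a3, b3)) with hp
      set p' : ℤ := (X (a1, b1) - X (a3, b3)) * (X (a2, b2) - X (a, b)) with hp'
      have hp0 : p ≠ 0 := mul_ne_zero (hXne _ h1 _ hq (Ne.symm hq1)) (hXne _ h2 _ h3 h23)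
      have r13 := h _ h1 _ h3
      have r24 := h _ h2 _ hq
      have r14 := h _ h1 _ hq
      have r23 := h _ h2 _ h3
      have hWW : W (a1, b1) * W (a3, b3) * (W (a2, b2) * W (a, b)) ≠ 0 :=
        mul_ne_zero (mul_ne_zero (hW _ h1) (hW _ h3)) (mul_ne_zero (hW _ h2) (hW _ hq))
      have rel : (val (a1, b1) - val (a3, b3)) * (val (a2, b2) - val (a, b)) * p =
          (val (a1, b1) - val (a, b)) * (val (a2, b2) - val (a3, b3)) * p' := by
        have e : D ^ 2 * ((val (a1, b1) - val (a3, b3)) * (val (a2, b2) - val (a, b)) * p) =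
            D ^ 2 * ((val (a1, b1) - val (a, b)) * (val (a2, b2) - val (a3, b3)) * p') := by
          calc D ^ 2 * ((val (a1, b1) - val (a3, b3)) * (val (a2, b2) - val (a, b)) * p)
              = (D * (val (a1, b1) - val (a3, b3))) * (D * (val (a2, b2) - val (a, b))) * p := by
                ring
            _ = (D * (val (a1, b1) - val (a, b))) * (D * (val (a2, b2) - val (a3, b3))) * p' := by
                rw [← r13, ← r24, ← r14, ← r23, hp, hp']
                push_cast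
                ring
            _ = _ := by ring
        exact mul_left_cancel₀ (pow_ne_zero 2 hD) e
      set F : ℤ := e2 * ((a : ℤ) ^ 2 - 2 * (b : ℤ) ^ 2) +
        (-e2 * (a1 + a2) + e1 * ((b1 : ℤ) - b2)) * a +
        (2 * e2 * (b1 + b2) + e1 * ((a2 : ℤ) - a1)) * b +
        (e2 * (a1 * a2 - 2 * (b1 * b2)) + e1 * (a1 * b2 - a2 * b1)) with hF
      set h1' : ℤ := ((a2 : ℤ) - a) * ((a1 : ℤ) - a) - 2 * (((b2 : ℤ) - b) * ((b1 : ℤ) - b))
        with hh1
      set h2' : ℤ := ((b2 : ℤ) - b) * ((a1 : ℤ) - a) - ((a2 : ℤ) - a) * ((b1 : ℤ) - b) with hh2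
      set G : ℤ := e1 * h1' + 2 * (e2 * h2') with hG
      set N1 : ℤ := ((a1 : ℤ) - a) ^ 2 - 2 * ((b1 : ℤ) - b) ^ 2 with hN1
      set N2 : ℤ := ((a2 : ℤ) - a3) ^ 2 - 2 * ((b2 : ℤ) - b3) ^ 2 with hN2
      have hFh : F = e1 * h2' + e2 * h1' := by
        rw [hF, hh1, hh2]; ring
      have key : ((p * G - p' * (N1 * N2) : ℤ) : ℝ) + ((p * F : ℤ) : ℝ) * √2 = 0 := by
        have k1 : (((a1 : ℝ) - a3) + ((b1 : ℝ) - b3) * √2) *
            (((a2 : ℝ) - a3) - ((b2 : ℝ) - b3) * √2) = (e1 : ℝ) + e2 * √2 := by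
          rw [he1, he2]
          push_cast
          linear_combination (((b1 : ℝ) - b3) * ((b2 : ℝ) - b3)) * (-1 : ℝ) * sq2
        have k2 : (((a2 : ℝ) - a) + ((b2 : ℝ) - b) * √2) *
            (((a1 : ℝ) - a) - ((b1 : ℝ) - b) * √2) = (h1' : ℝ) + h2' * √2 := by
          rw [hh1, hh2]
          push_cast
          linear_combination (((b2 : ℝ) - b) * ((b1 : ℝ) - b)) * (-1 : ℝ) * sq2
        have k3 : (((a1 : ℝ) - a) + ((b1 : ℝ) - b) * √2) *
            (((a1 : ℝ) - a) - ((b1 : ℝ) - b) * √2) = (N1 : ℝ) := by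
          rw [hN1]
          push_cast
          linear_combination (((b1 : ℝ) - b) ^ 2) * (-1 : ℝ) * sq2
        have k4 : (((a2 : ℝ) - a3) + ((b2 : ℝ) - b3) * √2) *
            (((a2 : ℝ) - a3) - ((b2 : ℝ) - b3) * √2) = (N2 : ℝ) := by
          rw [hN2]
          push_cast
          linear_combination (((b2 : ℝ) - b3) ^ 2) * (-1 : ℝ) * sq2
        have k5 : ((e1 : ℝ) + e2 * √2) * ((h1' : ℝ) + h2' * √2) = (G : ℝ) + F * √2 := by
          rw [hFh, hG]
          push_cast
          linear_combination ((e2 : ℝ) * h2') * sq2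
        simp only [val] at rel
        have rel' : ((((a1 : ℝ) - a3) + ((b1 : ℝ) - b3) * √2) *
            (((a2 : ℝ) - a) + ((b2 : ℝ) - b) * √2)) * p =
            ((((a1 : ℝ) - a) + ((b1 : ℝ) - b) * √2) *
            (((a2 : ℝ) - a3) + ((b2 : ℝ) - b3) * √2)) * p' := by
          linear_combination rel
        have e : ((G : ℝ) + F * √2) * p = ((N1 : ℝ) * N2) * p' := by
          rw [← k5, ← k1, ← k2, ← k3, ← k4]
          linear_combination ((((a2 : ℝ) - a3) - ((b2 : ℝ) - b3) * √2) *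
            (((a1 : ℝ) - a) - ((b1 : ℝ) - b) * √2)) * rel'
        push_cast
        linear_combination e
      have := (indep key).2
      exact (mul_eq_zero.mp this).resolve_left hp0

theorem mulVec_apply3 (A : Matrix (Fin 3) (Fin 3) ℝ) (x y : ℝ) (i : Fin 3) :
    (A *ᵥ ![x, y, 1]) i = A i 0 * x + A i 1 * y + A i 2 := by
  simp [Matrix.mulVec, dotProduct, Fin.sum_univ_three]

/-- A vertical fibre that is mapped to integer points is small. -/
theorem fiber_small (A : Matrix (Fin 3) (Fin 3) ℝ) (hA : A.det ≠ 0) (x0 s : ℝ) (hs : s ≠ 0)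
    (M : ℕ) (hM : 1 ≤ M) (Y : Finset (ℕ × ℕ)) (hYM : Y ⊆ box M)
    (hY : ∀ q ∈ Y, (A *ᵥ ![x0, s * val q, 1]) 2 ≠ 0 ∧ ∃ i j : ℤ,
      (A *ᵥ ![x0, s * val q, 1]) 0 = i * (A *ᵥ ![x0, s * val q, 1]) 2 ∧
      (A *ᵥ ![x0, s * val q, 1]) 1 = j * (A *ᵥ ![x0, s * val q, 1]) 2) :
    Y.card ≤ 2 * M := by
  classical
  rcases Y.eq_empty_or_nonempty with rfl | ⟨q0, hq0⟩
  · simp
  choose! hw i j hi hj using hY
  by_cases hD : (A 0 1 * (A 2 0 * x0 + A 2 2) - A 2 1 * (A 0 0 * x0 + A 0 2)) * s = 0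
  · by_cases hD' : (A 1 1 * (A 2 0 * x0 + A 2 2) - A 2 1 * (A 1 0 * x0 + A 1 2)) * s = 0
    · exfalso
      have e0 := (mul_eq_zero.mp hD).resolve_right hs
      have e1 := (mul_eq_zero.mp hD').resolve_right hs
      have hz : A *ᵥ ![-(A 2 1) * x0, A 2 0 * x0 + A 2 2, -(A 2 1)] = 0 := by
        funext t
        have ht : (A *ᵥ ![-(A 2 1) * x0, A 2 0 * x0 + A 2 2, -(A 2 1)]) t =
            A t 0 * (-(A 2 1) * x0) + A t 1 * (A 2 0 * x0 + A 2 2) + A t 2 * (-(A 2 1)) := by
          simp [Matrix.mulVec, dotProduct, Fin.sum_univ_three]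
        rw [ht, Pi.zero_apply]
        fin_cases t
        · change A 0 0 * (-(A 2 1) * x0) + A 0 1 * (A 2 0 * x0 + A 2 2) + A 0 2 * (-(A 2 1)) = 0
          linear_combination e0
        · change A 1 0 * (-(A 2 1) * x0) + A 1 1 * (A 2 0 * x0 + A 2 2) + A 1 2 * (-(A 2 1)) = 0
          linear_combination e1
        · change A 2 0 * (-(A 2 1) * x0) + A 2 1 * (A 2 0 * x0 + A 2 2) + A 2 2 * (-(A 2 1)) = 0
          ring
      have hv := Matrix.eq_zero_of_mulVec_eq_zero hA hz
      have v1 : A 2 0 * x0 + A 2 2 = 0 := congrFun hv 1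
      have v2 : -(A 2 1) = 0 := congrFun hv 2
      apply hw q0 hq0
      rw [mulVec_apply3]
      linear_combination v1 - (s * val q0) * v2
    · refine cross_count M _ hD' Y hYM hM j (fun q => (A *ᵥ ![x0, s * val q, 1]) 2) hw ?_
      intro q hq q' hq'
      have k1 := hj q hq
      have k2 := hj q' hq'
      rw [mulVec_apply3, mulVec_apply3] at k1 k2
      simp only [mulVec_apply3]
      linear_combination (-(A 2 0 * x0 + A 2 1 * (s * val q') + A 2 2)) * k1 +
        (A 2 0 * x0 + A 2 1 * (s * val q) + A 2 2) * k2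
  · refine cross_count M _ hD Y hYM hM i (fun q => (A *ᵥ ![x0, s * val q, 1]) 2) hw ?_
    intro q hq q' hq'
    have k1 := hi q hq
    have k2 := hi q' hq'
    rw [mulVec_apply3, mulVec_apply3] at k1 k2
    simp only [mulVec_apply3]
    linear_combination (-(A 2 0 * x0 + A 2 1 * (s * val q') + A 2 2)) * k1 +
      (A 2 0 * x0 + A 2 1 * (s * val q) + A 2 2) * k2

/-- A subset of the grid `(val q, s * val q')`, `q ∈ box k`, `q' ∈ box M` that is mapped into a
lattice section has at most `2 M k ^ 2` points. -/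
theorem grid_small (s : ℝ) (hs : s ≠ 0) (k M : ℕ) (hM : 1 ≤ M) (X : Finset (ℝ × ℝ))
    (hX : ∀ p ∈ X, ∃ q ∈ box k, ∃ q' ∈ box M, p = (val q, s * val q')) {t : ℝ}
    (h : InSection X t) : X.card ≤ 2 * M * k ^ 2 := by
  classical
  obtain ⟨A, hA, a, b, -, hAX⟩ := h
  have hT : ((box k).image val).card ≤ k ^ 2 := card_image_le.trans (card_box k).le
  refine (card_le_of_fibers X (fun p => p.1) ((box k).image val) (2 * M) ?_ ?_).trans
    (Nat.mul_le_mul_left _ hT)
  · intro p hp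
    obtain ⟨q, hq, q', -, rfl⟩ := hX p hp
    exact mem_image_of_mem _ hq
  · intro x0 _
    set Y := (box M).filter (fun q => (x0, s * val q) ∈ X) with hYdef
    have hcard : (X.filter fun p => p.1 = x0).card ≤ Y.card := by
      have hsub : (X.filter fun p => p.1 = x0) ⊆ Y.image (fun q => (x0, s * val q)) := by
        intro p hp
        rw [mem_filter] at hp
        obtain ⟨q, hq, q', hq', hpe⟩ := hX p hp.1
        have hx : val q = x0 := by rw [← hp.2, hpe]
        refine mem_image.mpr ⟨q', mem_filter.mpr ⟨hq', ?_⟩, ?_⟩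
        · rw [← hx, ← hpe]; exact hp.1
        · rw [← hx, ← hpe]
      exact (card_le_card hsub).trans card_image_le
    refine hcard.trans (fiber_small A hA x0 s hs M hM Y (filter_subset _ _) ?_)
    intro q hq
    rw [hYdef, mem_filter] at hq
    obtain ⟨h1, i, -, j, -, hi, hj⟩ := hAX _ hq.2
    refine ⟨h1, i, j, ?_, ?_⟩
    · rw [div_eq_iff h1] at hi
      rw [hi]; norm_cast
    · rw [div_eq_iff h1] at hj
      rw [hj]; norm_cast

/-! ### The configuration -/

open scoped Classical in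
/-- the points -/
noncomputable def P (k : ℕ) : Finset (ℝ × ℝ) :=
  (box k ×ˢ box (6 * k ^ 2)).image (fun x => (val x.1, val x.2))

open scoped Classical in
/-- the dual points `(s, t)` of the lines `y = s x - t` -/
noncomputable def L (k : ℕ) : Finset (ℝ × ℝ) :=
  (box k ×ˢ box (3 * k ^ 2)).image (fun x => (val x.1, -1 * val x.2))

theorem card_P (k : ℕ) : (P k).card = 36 * k ^ 6 := by
  classical
  rw [P, card_image_of_injective, card_product, card_box, card_box]
  · ring
  · rintro ⟨a, b⟩ ⟨c, d⟩ h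
    simp only [Prod.mk.injEq] at h ⊢
    exact ⟨val_injective h.1, val_injective h.2⟩

theorem card_L (k : ℕ) : (L k).card = 9 * k ^ 6 := by
  classical
  rw [L, card_image_of_injective, card_product, card_box, card_box]
  · ring
  · rintro ⟨a, b⟩ ⟨c, d⟩ h
    simp only [Prod.mk.injEq] at h ⊢
    exact ⟨val_injective h.1, val_injective (by linarith [h.2])⟩

theorem incidences_ge (k : ℕ) : 9 * k ^ 8 ≤ incidences (P k) (L k) := by
  classical
  have hcard : (box k ×ˢ (box k ×ˢ box (3 * k ^ 2))).card = 9 * k ^ 8 := by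
    rw [card_product, card_product, card_box, card_box]; ring
  rw [← hcard, incidences]
  refine card_le_card_of_injOn (fun x =>
    ((val x.1, val (x.2.1.1 * x.1.1 + 2 * (x.2.1.2 * x.1.2) + x.2.2.1,
      x.2.1.1 * x.1.2 + x.2.1.2 * x.1.1 + x.2.2.2)), (val x.2.1, -1 * val x.2.2))) ?_ ?_
  · rintro ⟨⟨c, d⟩, ⟨a, b⟩, ⟨e, f⟩⟩ hx
    rw [mem_coe, mem_product, mem_product, box, box, mem_product, mem_product, mem_product,
      mem_range, mem_range, mem_range, mem_range, mem_range, mem_range] at hx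
    obtain ⟨⟨hc, hd⟩, ⟨ha, hb⟩, ⟨he, hf⟩⟩ := hx
    simp only at hc hd ha hb he hf
    rw [mem_coe, mem_filter, mem_product]
    have hac : a * c ≤ k ^ 2 := by rw [pow_two]; exact Nat.mul_le_mul ha.le hc.le
    have hbd : b * d ≤ k ^ 2 := by rw [pow_two]; exact Nat.mul_le_mul hb.le hd.le
    have had : a * d ≤ k ^ 2 := by rw [pow_two]; exact Nat.mul_le_mul ha.le hd.le
    have hbc : b * c ≤ k ^ 2 := by rw [pow_two]; exact Nat.mul_le_mul hb.le hc.le
    refine ⟨⟨?_, ?_⟩, ?_⟩
    · refine mem_image.mpr ⟨((c, d), (a * c + 2 * (b * d) + e, a * d + b * c + f)), ?_, rfl⟩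
      rw [mem_product, box, box, mem_product, mem_product, mem_range, mem_range, mem_range,
        mem_range]
      simp only
      omega
    · refine mem_image.mpr ⟨((a, b), (e, f)), ?_, rfl⟩
      rw [mem_product, box, box, mem_product, mem_product, mem_range, mem_range, mem_range,
        mem_range]
      simp only
      omega
    · simp only [val]
      push_cast
      linear_combination (-(b : ℝ) * d) * sq2
  · rintro ⟨q1, q2, q3⟩ _ ⟨q1', q2', q3'⟩ _ h
    simp only [Prod.mk.injEq] at h ⊢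
    obtain ⟨⟨h1, -⟩, h2, h3⟩ := h
    exact ⟨val_injective h1, val_injective h2, val_injective (by linarith)⟩

/-- Szemerédi–Trotter extremal configurations without structure: for some `C₁, c₂, c₃ > 0`, all
`c > 0` and all `N` there are `m, n ≥ N` with `c₂ √n ≤ m ≤ C₁ n ^ 2`, a set `P` of `m` points and a
set `L` of `n` (non-vertical) lines with at least `c₃ m ^ (2 / 3) n ^ (2 / 3)` incidences such that,
for every `C`, no subset of at least `c m` points of `P` and no subset of the dual points of at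
least `c n` lines of `L` is mapped into a lattice section of size at most `C m`, respectively
`C n`, by a projective transformation. -/
theorem result : ∃ C₁ c₂ c₃ : ℝ, 0 < C₁ ∧ 0 < c₂ ∧ 0 < c₃ ∧
    ∀ c : ℝ, 0 < c → ∀ N : ℕ, ∃ m n : ℕ, N ≤ m ∧ N ≤ n ∧
      c₂ * √(n : ℝ) ≤ m ∧ (m : ℝ) ≤ C₁ * (n : ℝ) ^ 2 ∧
      ∃ P L : Finset (ℝ × ℝ), P.card = m ∧ L.card = n ∧
        c₃ * ((m : ℝ) ^ (2 / 3 : ℝ) * (n : ℝ) ^ (2 / 3 : ℝ)) ≤ incidences P L ∧
        ∀ C : ℝ,
          (¬ ∃ P' ⊆ P, c * m ≤ P'.card ∧ InSection P' (C * m)) ∧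
          (¬ ∃ L' ⊆ L, c * n ≤ L'.card ∧ InSection L' (C * n)) := by
  refine ⟨1, 1, 1 / 6, one_pos, one_pos, by norm_num, ?_⟩
  intro c hc N
  obtain ⟨k0, hk0⟩ := exists_nat_gt (1 / c)
  set k : ℕ := max k0 (max N 1) with hk
  have hk1 : 1 ≤ k := (le_max_right _ _).trans (le_max_right _ _)
  have hkN : N ≤ k := (le_max_left _ _).trans (le_max_right _ _)
  have hkc : 1 < c * k := by
    have h1 : 1 / c < (k : ℝ) := lt_of_lt_of_le hk0 (by exact_mod_cast le_max_left _ _)
    rw [div_lt_iff₀ hc] at h1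
    linarith
  have hk1' : (1 : ℝ) ≤ k := by exact_mod_cast hk1
  have hkpow : ∀ e : ℕ, (1 : ℝ) ≤ (k : ℝ) ^ e := fun e => one_le_pow₀ hk1'
  have hck : (k : ℝ) ^ 4 < c * (k : ℝ) ^ 6 := by
    have h4 : (0 : ℝ) < (k : ℝ) ^ 4 := lt_of_lt_of_le one_pos (hkpow 4)
    have h5 : 1 < c * (k : ℝ) ^ 2 := by
      have : 0 < c * (k : ℝ) := by linarith
      nlinarith
    calc (k : ℝ) ^ 4 = 1 * (k : ℝ) ^ 4 := by ring
      _ < (c * (k : ℝ) ^ 2) * (k : ℝ) ^ 4 := mul_lt_mul_of_pos_right h5 h4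
      _ = c * (k : ℝ) ^ 6 := by ring
  have hNk : N ≤ k ^ 6 := hkN.trans (Nat.le_self_pow (by norm_num) k)
  refine ⟨36 * k ^ 6, 9 * k ^ 6, by omega, by omega, ?_, ?_, P k, L k, card_P k, card_L k, ?_, ?_⟩
  · have h1 : √((9 * k ^ 6 : ℕ) : ℝ) = 3 * (k : ℝ) ^ 3 := by
      rw [Real.sqrt_eq_iff_mul_self_eq (by positivity) (by positivity)]
      push_cast
      ring
    rw [h1]
    push_cast
    have h3 := hkpow 3
    nlinarith
  · push_cast
    have h6 := hkpow 6
    nlinarith
  · have hI : (9 : ℝ) * (k : ℝ) ^ 8 ≤ incidences (P k) (L k) := by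
      exact_mod_cast incidences_ge k
    refine le_trans ?_ hI
    have h1 : (((36 * k ^ 6 : ℕ) : ℝ)) ^ (2 / 3 : ℝ) * (((9 * k ^ 6 : ℕ) : ℝ)) ^ (2 / 3 : ℝ) ≤
        49 * (k : ℝ) ^ 8 := by
      rw [← Real.mul_rpow (by positivity) (by positivity)]
      have h2 : ((36 * k ^ 6 : ℕ) : ℝ) * ((9 * k ^ 6 : ℕ) : ℝ) ≤ (7 * (k : ℝ) ^ 4) ^ (3 : ℝ) := by
        rw [show (3 : ℝ) = ((3 : ℕ) : ℝ) by norm_num, Real.rpow_natCast]
        push_cast
        have := hkpow 12
        nlinarith
      calc (((36 * k ^ 6 : ℕ) : ℝ) * ((9 * k ^ 6 : ℕ) : ℝ)) ^ (2 / 3 : ℝ)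
          ≤ ((7 * (k : ℝ) ^ 4) ^ (3 : ℝ)) ^ (2 / 3 : ℝ) :=
            Real.rpow_le_rpow (by positivity) h2 (by norm_num)
        _ = (7 * (k : ℝ) ^ 4) ^ ((2 : ℕ) : ℝ) := by
            rw [← Real.rpow_mul (by positivity)]
            norm_num
        _ = 49 * (k : ℝ) ^ 8 := by
            rw [Real.rpow_natCast]
            ring
    have h8 := hkpow 8
    linarith
  · intro C
    constructor
    · rintro ⟨P', hP', hcard, hsec⟩
      have hle : P'.card ≤ 2 * (6 * k ^ 2) * k ^ 2 := by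
        refine grid_small 1 one_ne_zero k (6 * k ^ 2) ?_ P' ?_ hsec
        · have : 1 ≤ k ^ 2 := Nat.one_le_pow _ _ hk1
          omega
        · intro p hp
          have hp' := hP' hp
          rw [P, mem_image] at hp'
          obtain ⟨⟨q, q'⟩, hq, rfl⟩ := hp'
          rw [mem_product] at hq
          exact ⟨q, hq.1, q', hq.2, by rw [one_mul]⟩
      have hle' : (P'.card : ℝ) ≤ 12 * (k : ℝ) ^ 4 := by
        have : ((P'.card : ℕ) : ℝ) ≤ ((2 * (6 * k ^ 2) * k ^ 2 : ℕ) : ℝ) := by exact_mod_cast hle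
        push_cast at this
        linarith
      push_cast at hcard
      have h4 := hkpow 4
      linarith
    · rintro ⟨L', hL', hcard, hsec⟩
      have hle : L'.card ≤ 2 * (3 * k ^ 2) * k ^ 2 := by
        refine grid_small (-1) (by norm_num) k (3 * k ^ 2) ?_ L' ?_ hsec
        · have : 1 ≤ k ^ 2 := Nat.one_le_pow _ _ hk1
          omega
        · intro p hp
          have hp' := hL' hp
          rw [L, mem_image] at hp'
          obtain ⟨⟨q, q'⟩, hq, rfl⟩ := hp'
          rw [mem_product] at hq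
          exact ⟨q, hq.1, q', hq.2, rfl⟩
      have hle' : (L'.card : ℝ) ≤ 6 * (k : ℝ) ^ 4 := by
        have : ((L'.card : ℕ) : ℝ) ≤ ((2 * (3 * k ^ 2) * k ^ 2 : ℕ) : ℝ) := by exact_mod_cast hle
        push_cast at this
        linarith
      push_cast at hcard
      have h4 := hkpow 4
      linarith

end Pool.Agent.Results.MP_fad2aa_co.SqrtTwoGrid

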